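import Mathlib

/-!
# Toda primes
-/

set_option autoImplicit false

open Finset

namespace Pool.Agent.Lib.MP_f63cbe_nt

/-- `p` is a Toda prime of `n`: an odd prime with `p - 1 ∣ 4 n` and `gcd (p, 4 n / (p - 1)) = 1` -/
def IsToda (n p : ℕ) : Prop :=
  p.Prime ∧ p ≠ 2 ∧ (p - 1) ∣ 4 * n ∧ Nat.gcd p (4 * n / (p - 1)) = 1

/-- the set `T(n)` of the Toda primes of `n` -/
def T (n : ℕ) : Set ℕ := {p | IsToda n p}

/-- the hypotheses of the question: `n` is odd, square-free, divisible by `3`, exactly one `p` of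
`5, 7, 13` divides `n`, and some `q` in `T(3p)` which is not `5, 7, 13` does not divide `n` -/
def Hyp (n : ℕ) : Prop :=
  Odd n ∧ Squarefree n ∧ 3 ∣ n ∧ ∃ p ∈ ({5, 7, 13} : Finset ℕ), p ∣ n ∧
    (∀ r ∈ ({5, 7, 13} : Finset ℕ), r ≠ p → ¬ r ∣ n) ∧
    ∃ q ∈ T (3 * p), q ∉ ({5, 7, 13} : Finset ℕ) ∧ ¬ q ∣ n

/-- a counterexample: the hypotheses hold and `t(n) = |T(n)| ≤ 3` -/
def Counterexample (n : ℕ) : Prop := Hyp n ∧ (T n).ncard ≤ 3

/-- the product of the numbers `d + 1`, `d ∣ 4 n` -/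
def Q (n : ℕ) : ℕ := ∏ d ∈ (4 * n).divisors, (d + 1)

theorem dvd_Q {n d : ℕ} (hn : 0 < n) (hd : d ∣ 4 * n) : d + 1 ∣ Q n :=
  dvd_prod_of_mem (fun d => d + 1) (Nat.mem_divisors.mpr ⟨hd, by omega⟩)

theorem Q_pos (n : ℕ) : 0 < Q n := prod_pos fun _ _ => Nat.succ_pos _

theorem modEq_one {k m : ℕ} (hm : 0 < m) (h : ∀ l, l.Prime → l ∣ m → l ≡ 1 [MOD k]) :
    m ≡ 1 [MOD k] := by
  induction m using Nat.recOnMul with
  | zero => omega
  | one => rfl
  | prime p hp => exact h p hp dvd_rfl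
  | mul a b iha ihb =>
    have ha : 0 < a := Nat.pos_of_ne_zero (by rintro rfl; simp at hm)
    have hb : 0 < b := Nat.pos_of_ne_zero (by rintro rfl; simp at hm)
    have h1 := (iha ha fun l hl hd => h l hl (hd.mul_right b)).mul
      (ihb hb fun l hl hd => h l hl (hd.mul_left a))
    rwa [one_mul] at h1

theorem T_mul {n m : ℕ} (hn : 0 < n) (hm : 0 < m)
    (h : ∀ l, l.Prime → l ∣ m → l ≡ 1 [MOD Q n]) : T (n * m) = T n := by
  ext p
  constructor
  · rintro ⟨hp, hp2, hd, hg⟩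
    rw [← mul_assoc] at hd
    obtain ⟨d, f, hd1, hf, hdf⟩ := (Nat.dvd_mul.mp hd)
    have hf0 : 0 < f := Nat.pos_of_dvd_of_pos hf hm
    have h1 : f ≡ 1 [MOD Q n] := modEq_one hf0 fun l hl hlf => h l hl (hlf.trans hf)
    have h2 : f ≡ 1 [MOD (d + 1)] := h1.of_dvd (dvd_Q hn hd1)
    have h3 : d * f + 1 ≡ 0 [MOD (d + 1)] := by
      have h4 : d * f + 1 ≡ d * 1 + 1 [MOD (d + 1)] := (h2.mul_left d).add_right 1
      rw [mul_one] at h4
      exact h4.trans (Nat.modEq_zero_iff_dvd.mpr dvd_rfl)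
    have hp1 : p = d * f + 1 := by
      have := hp.one_lt
      omega
    rw [← hp1] at h3
    have h5 : d + 1 ∣ p := Nat.modEq_zero_iff_dvd.mp h3
    have hd0 : 0 < d := Nat.pos_of_dvd_of_pos hd1 (by omega)
    have h6 : d + 1 = p := by
      rcases (Nat.dvd_prime hp).mp h5 with h7 | h7
      · omega
      · exact h7
    have h7 : p - 1 ∣ 4 * n := by
      have h8 : p - 1 = d := by omega
      rw [h8]
      exact hd1
    refine ⟨hp, hp2, h7, ?_⟩
    have h8 : 4 * (n * m) / (p - 1) = 4 * n / (p - 1) * m := by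
      rw [← mul_assoc, Nat.div_mul_right_comm h7]
    rw [h8] at hg
    exact Nat.Coprime.coprime_mul_right_right hg
  · rintro ⟨hp, hp2, hd, hg⟩
    refine ⟨hp, hp2, ?_, ?_⟩
    · rw [← mul_assoc]
      exact hd.mul_right m
    · have h8 : 4 * (n * m) / (p - 1) = 4 * n / (p - 1) * m := by
        rw [← mul_assoc, Nat.div_mul_right_comm hd]
      rw [h8]
      refine Nat.Coprime.mul_right hg ?_
      rw [hp.coprime_iff_not_dvd]
      intro hpm
      have h9 : p ∣ Q n := by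
        have := dvd_Q hn hd
        rwa [Nat.sub_add_cancel hp.one_lt.le] at this
      have h10 : p ≡ 1 [MOD p] := (h p hp hpm).of_dvd h9
      have h11 : (0 : ℕ) ≡ 1 [MOD p] := ((Nat.modEq_zero_iff_dvd.mpr dvd_rfl).symm).trans h10
      have h12 := (Nat.modEq_iff_dvd' (Nat.zero_le 1)).mp h11
      exact hp.one_lt.ne' (Nat.dvd_one.mp h12)

/-- a prime `p` with `p - 1 ∣ 4 n` does not divide `m` -/
theorem not_dvd_of {n m p : ℕ} (hn : 0 < n)
    (h : ∀ l, l.Prime → l ∣ m → l ≡ 1 [MOD Q n]) (hp : p.Prime) (hd : p - 1 ∣ 4 * n) :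
    ¬ p ∣ m := by
  intro hpm
  have h9 : p ∣ Q n := by
    have := dvd_Q hn hd
    rwa [Nat.sub_add_cancel hp.one_lt.le] at this
  have h10 : p ≡ 1 [MOD p] := (h p hp hpm).of_dvd h9
  have h11 : (0 : ℕ) ≡ 1 [MOD p] := ((Nat.modEq_zero_iff_dvd.mpr dvd_rfl).symm).trans h10
  have h12 := (Nat.modEq_iff_dvd' (Nat.zero_le 1)).mp h11
  exact hp.one_lt.ne' (Nat.dvd_one.mp h12)

theorem coprime_of {n m : ℕ} (hn : 0 < n)
    (h : ∀ l, l.Prime → l ∣ m → l ≡ 1 [MOD Q n]) : Nat.Coprime n m := by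
  refine Nat.Coprime.symm (Nat.coprime_of_dvd fun l hl hlm hln => ?_)
  have h1 : l + 1 ∣ Q n := dvd_Q hn (hln.mul_left 4)
  have h2 : l ≡ 1 [MOD (l + 1)] := (h l hl hlm).of_dvd h1
  have h3 := (Nat.modEq_iff_dvd' hl.one_lt.le).mp h2.symm
  have h4 := Nat.le_of_dvd (by have := hl.one_lt; omega) h3
  omega

theorem Hyp.pos {n : ℕ} (h : Hyp n) : 0 < n := by
  rcases Nat.eq_zero_or_pos n with h0 | h0
  · subst h0
    exact absurd h.2.1 not_squarefree_zero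
  · exact h0

theorem Hyp.mul {n m : ℕ} (hH : Hyp n) (hsq : Squarefree m)
    (h : ∀ l, l.Prime → l ∣ m → l ≡ 1 [MOD Q n]) : Hyp (n * m) := by
  have hn := hH.pos
  obtain ⟨h1, h2, h3, p, hp, hpn, hr, q, hq, hq5, hqn⟩ := hH
  have hm2 : ¬ 2 ∣ m := not_dvd_of hn h Nat.prime_two (by simp)
  have h12 : 12 ∣ 4 * n := by
    obtain ⟨k, rfl⟩ := h3
    exact ⟨k, by ring⟩
  have hpd : 12 * p ∣ 4 * n := by
    have h3p : 3 * p ∣ n := by
      refine Nat.Coprime.mul_dvd_of_dvd_of_dvd ?_ h3 hpn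
      simp only [mem_insert, mem_singleton] at hp
      rcases hp with rfl | rfl | rfl <;> decide
    obtain ⟨k, hk⟩ := h3p
    exact ⟨k, by rw [hk]; ring⟩
  refine ⟨?_, ?_, h3.mul_right m, p, hp, hpn.mul_right m, ?_, q, hq, hq5, ?_⟩
  · rw [Nat.odd_mul]
    refine ⟨h1, ?_⟩
    rw [← Nat.not_even_iff_odd, even_iff_two_dvd]
    exact hm2
  · exact (Nat.squarefree_mul (coprime_of hn h)).mpr ⟨h2, hsq⟩
  · intro r hr5 hrp hrd
    have hrP : r.Prime ∧ r - 1 ∣ 12 := by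
      simp only [mem_insert, mem_singleton] at hr5
      rcases hr5 with rfl | rfl | rfl <;> norm_num
    rcases hrP.1.dvd_mul.mp hrd with h5 | h5
    · exact hr r hr5 hrp h5
    · exact not_dvd_of hn h hrP.1 (hrP.2.trans h12) h5
  · intro hqd
    obtain ⟨hqP, _, hq1, _⟩ := hq
    rcases hqP.dvd_mul.mp hqd with h5 | h5
    · exact hqn h5
    · refine not_dvd_of hn h hqP (hq1.trans ?_) h5
      have h6 : 4 * (3 * p) = 12 * p := by ring
      rw [h6]
      exact hpd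

theorem Counterexample.mul {n m : ℕ} (hH : Counterexample n) (hsq : Squarefree m)
    (h : ∀ l, l.Prime → l ∣ m → l ≡ 1 [MOD Q n]) : Counterexample (n * m) := by
  refine ⟨hH.1.mul hsq h, ?_⟩
  rw [T_mul hH.1.pos (Nat.pos_of_ne_zero hsq.ne_zero) h]
  exact hH.2

end Pool.Agent.Lib.MP_f63cbe_nt
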