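import Pool.Agent.Lib.MP_f63cbe_nt.Basic

/-!
# The closures
-/

set_option autoImplicit false

open Finset

namespace Pool.Agent.Lib.MP_f63cbe_nt

/-- `S` together with the odd primes `l` outside `X` such that `l - 1` divides `4` times the product
of `S` -/
def step (X S : Finset ℕ) : Finset ℕ :=
  S ∪ ((4 * ∏ l ∈ S, l).divisors.image (· + 1)).filter fun l => l.Prime ∧ l ≠ 2 ∧ l ∉ X

/-- the `j`-th stage of the closure which starts with `3, p` and avoids `5, 7, 13, q` without `p` -/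
def clo (p q j : ℕ) : Finset ℕ := (step (({5, 7, 13, q} : Finset ℕ).erase p))^[j] {3, p}

/-- `n` is a counterexample for the pair `p`, `q` -/
def CounterOf (p q n : ℕ) : Prop :=
  Odd n ∧ Squarefree n ∧ 3 ∣ n ∧ p ∣ n ∧ (∀ r ∈ ({5, 7, 13} : Finset ℕ), r ≠ p → ¬ r ∣ n) ∧
    ¬ q ∣ n ∧ (T n).ncard ≤ 3

theorem isToda_iff (n p : ℕ) : IsToda n p ↔ p.Prime ∧ p ≠ 2 ∧ (p - 1) ∣ 4 * n ∧ ¬ p ∣ n := by
  constructor
  · rintro ⟨hp, hp2, hd, hg⟩
    refine ⟨hp, hp2, hd, fun h => ?_⟩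
    have h1 : p ∣ (p - 1) * (4 * n / (p - 1)) := by
      rw [Nat.mul_div_cancel' hd]
      exact h.mul_left 4
    rcases hp.dvd_mul.mp h1 with h2 | h2
    · have h3 := hp.one_lt
      have h4 := Nat.le_of_dvd (by omega) h2
      omega
    · have h3 : p ∣ Nat.gcd p (4 * n / (p - 1)) := Nat.dvd_gcd dvd_rfl h2
      rw [hg] at h3
      exact hp.one_lt.ne' (Nat.dvd_one.mp h3)
  · rintro ⟨hp, hp2, hd, hn⟩
    refine ⟨hp, hp2, hd, ?_⟩
    rw [← Nat.coprime_iff_gcd_eq_one, hp.coprime_iff_not_dvd]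
    intro h
    have h1 : p ∣ 4 * n := h.trans (Nat.div_dvd_of_dvd hd)
    rcases hp.dvd_mul.mp h1 with h2 | h2
    · have h3 : p ∣ 2 ^ 2 := h2
      exact hp2 ((Nat.prime_dvd_prime_iff_eq hp Nat.prime_two).mp (hp.dvd_of_dvd_pow h3))
    · exact hn h2

theorem mem_step {X S : Finset ℕ} {l : ℕ} : l ∈ step X S ↔
    l ∈ S ∨ (l.Prime ∧ l ≠ 2 ∧ l ∉ X ∧ (4 * ∏ l ∈ S, l) ≠ 0 ∧ l - 1 ∣ 4 * ∏ l ∈ S, l) := by
  rw [step, mem_union, mem_filter, mem_image]
  refine or_congr Iff.rfl ⟨?_, ?_⟩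
  · rintro ⟨⟨d, hd, rfl⟩, h1, h2, h3⟩
    exact ⟨h1, h2, h3, (Nat.mem_divisors.mp hd).2, (Nat.mem_divisors.mp hd).1⟩
  · rintro ⟨h1, h2, h3, h4, h5⟩
    exact ⟨⟨l - 1, Nat.mem_divisors.mpr ⟨h5, h4⟩, Nat.sub_add_cancel h1.one_lt.le⟩, h1, h2, h3⟩

theorem clo_succ (p q j : ℕ) :
    clo p q (j + 1) = step (({5, 7, 13, q} : Finset ℕ).erase p) (clo p q j) := by
  rw [clo, Function.iterate_succ_apply']
  rfl

section

variable {p q : ℕ}

theorem card_X (hp : p ∈ ({5, 7, 13} : Finset ℕ)) (hq5 : q ∉ ({5, 7, 13} : Finset ℕ)) :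
    #(({5, 7, 13, q} : Finset ℕ).erase p) = 3 := by
  have h1 : p ∈ ({5, 7, 13, q} : Finset ℕ) := by
    simp only [mem_insert, mem_singleton] at hp ⊢
    tauto
  have h2 : #({5, 7, 13, q} : Finset ℕ) = 4 := by
    have h3 : ({5, 7, 13, q} : Finset ℕ) = insert q {5, 7, 13} := by
      ext x
      simp only [mem_insert, mem_singleton]
      tauto
    rw [h3, card_insert_of_notMem hq5]
    rfl
  rw [card_erase_of_mem h1, h2]

theorem mem_X {x : ℕ} : x ∈ ({5, 7, 13, q} : Finset ℕ).erase p ↔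
    x ≠ p ∧ (x ∈ ({5, 7, 13} : Finset ℕ) ∨ x = q) := by
  simp only [mem_erase, mem_insert, mem_singleton]
  tauto

theorem prime_of_mem {r : ℕ} (hr : r ∈ ({5, 7, 13} : Finset ℕ)) :
    r.Prime ∧ r ≠ 2 ∧ r ≠ 3 ∧ r - 1 ∣ 12 := by
  simp only [mem_insert, mem_singleton] at hr
  rcases hr with rfl | rfl | rfl <;> norm_num

theorem finite_T {n : ℕ} (hn : 0 < n) : (T n).Finite := by
  refine ((4 * n).divisors.image (· + 1)).finite_toSet.subset ?_
  rintro p ⟨hp, _, hd, _⟩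
  rw [coe_image]
  exact ⟨p - 1, Nat.mem_divisors.mpr ⟨hd, by omega⟩, Nat.sub_add_cancel hp.one_lt.le⟩

theorem T_eq (hp : p ∈ ({5, 7, 13} : Finset ℕ)) (hq : q ∈ T (3 * p))
    (hq5 : q ∉ ({5, 7, 13} : Finset ℕ)) {n : ℕ} (h : CounterOf p q n) :
    T n = (({5, 7, 13, q} : Finset ℕ).erase p : Finset ℕ) := by
  obtain ⟨h1, h2, h3, h4, h5, h6, h7⟩ := h
  have hn : 0 < n := Nat.pos_of_ne_zero h2.ne_zero
  refine (Set.eq_of_subset_of_ncard_le ?_ ?_ (finite_T hn)).symm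
  · intro x hx
    rw [mem_coe, mem_X] at hx
    have h12 : 12 ∣ 4 * n := by
      obtain ⟨k, rfl⟩ := h3
      exact ⟨k, by ring⟩
    rcases hx.2 with hx2 | rfl
    · obtain ⟨e1, e2, _, e4⟩ := prime_of_mem hx2
      exact (isToda_iff n x).mpr ⟨e1, e2, e4.trans h12, h5 x hx2 hx.1⟩
    · obtain ⟨e1, e2, e3, _⟩ := hq
      refine (isToda_iff n x).mpr ⟨e1, e2, e3.trans ?_, h6⟩
      have h3p : 3 * p ∣ n := by
        refine Nat.Coprime.mul_dvd_of_dvd_of_dvd ?_ h3 h4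
        simp only [mem_insert, mem_singleton] at hp
        rcases hp with rfl | rfl | rfl <;> decide
      exact Nat.mul_dvd_mul_left 4 h3p
  · rw [Set.ncard_coe_finset, card_X hp hq5]
    exact h7

theorem clo_dvd (hp : p ∈ ({5, 7, 13} : Finset ℕ)) (hq : q ∈ T (3 * p))
    (hq5 : q ∉ ({5, 7, 13} : Finset ℕ)) {n : ℕ} (h : CounterOf p q n) (j : ℕ) :
    clo p q j ⊆ n.primeFactors := by
  have hn : n ≠ 0 := h.2.1.ne_zero
  induction j with
  | zero =>
    intro l hl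
    have hl' : l = 3 ∨ l = p := by simpa [clo] using hl
    rcases hl' with rfl | rfl
    · exact Nat.mem_primeFactors.mpr ⟨Nat.prime_three, h.2.2.1, hn⟩
    · exact Nat.mem_primeFactors.mpr ⟨(prime_of_mem hp).1, h.2.2.2.1, hn⟩
  | succ j ih =>
    intro l hl
    rw [clo_succ, mem_step] at hl
    rcases hl with hl | ⟨e1, e2, e3, _, e5⟩
    · exact ih hl
    · refine Nat.mem_primeFactors.mpr ⟨e1, ?_, hn⟩
      by_contra hln
      have h1 : ∏ l ∈ clo p q j, l ∣ n :=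
        Finset.prod_primes_dvd n (fun l hl => (Nat.prime_of_mem_primeFactors (ih hl)).prime)
          fun l hl => Nat.dvd_of_mem_primeFactors (ih hl)
      have h2 : l ∈ T n := (isToda_iff n l).mpr
        ⟨e1, e2, e5.trans (Nat.mul_dvd_mul_left 4 h1), hln⟩
      rw [T_eq hp hq hq5 h] at h2
      exact e3 h2

theorem clo_prime (hp : p ∈ ({5, 7, 13} : Finset ℕ)) (hq : q ∈ T (3 * p)) (j : ℕ) :
    ∀ l ∈ clo p q j, l.Prime ∧ l ≠ 2 ∧ l ∉ ({5, 7, 13, q} : Finset ℕ).erase p := by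
  induction j with
  | zero =>
    intro l hl
    have hl' : l = 3 ∨ l = p := by simpa [clo] using hl
    rcases hl' with rfl | rfl
    · refine ⟨Nat.prime_three, by norm_num, fun h => ?_⟩
      rw [mem_X] at h
      rcases h.2 with h2 | h2
      · exact (prime_of_mem h2).2.2.1 rfl
      · rw [← h2] at hq
        exact ((isToda_iff _ _).mp hq).2.2.2 (dvd_mul_right 3 p)
    · exact ⟨(prime_of_mem hp).1, (prime_of_mem hp).2.1, notMem_erase l _⟩
  | succ j ih =>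
    intro l hl
    rw [clo_succ, mem_step] at hl
    rcases hl with hl | ⟨e1, e2, e3, _, _⟩
    · exact ih l hl
    · exact ⟨e1, e2, e3⟩

theorem clo_zero_subset (j : ℕ) : ({3, p} : Finset ℕ) ⊆ clo p q j := by
  induction j with
  | zero => exact Subset.rfl
  | succ j ih =>
    rw [clo_succ]
    exact ih.trans subset_union_left

theorem counterOf_clo (hp : p ∈ ({5, 7, 13} : Finset ℕ)) (hq : q ∈ T (3 * p))
    (hq5 : q ∉ ({5, 7, 13} : Finset ℕ)) {j : ℕ} (hj : clo p q (j + 1) = clo p q j) :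
    CounterOf p q (∏ l ∈ clo p q j, l) := by
  have hP := clo_prime hp hq j
  have hdvd : ∀ l, l.Prime → (l ∣ ∏ l ∈ clo p q j, l ↔ l ∈ clo p q j) := by
    intro l hl
    constructor
    · intro h
      obtain ⟨x, hx, hlx⟩ := (Prime.dvd_finsetProd_iff hl.prime _).mp h
      rw [(Nat.prime_dvd_prime_iff_eq hl (hP x hx).1).mp hlx]
      exact hx
    · exact fun h => dvd_prod_of_mem (fun l => l) h
  have h0 : (∏ l ∈ clo p q j, l) ≠ 0 := prod_ne_zero_iff.mpr fun l hl => (hP l hl).1.ne_zero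
  refine ⟨?_, ?_, ?_, ?_, ?_, ?_, ?_⟩
  · rw [← Nat.not_even_iff_odd, even_iff_two_dvd, hdvd 2 Nat.prime_two]
    exact fun h => (hP 2 h).2.1 rfl
  · refine Finset.squarefree_prod_of_pairwise_isCoprime ?_ fun l hl => (hP l hl).1.squarefree
    intro x hx y hy hxy
    exact Nat.coprime_iff_isRelPrime.mp ((Nat.coprime_primes (hP x hx).1 (hP y hy).1).mpr hxy)
  · exact (hdvd 3 Nat.prime_three).mpr (clo_zero_subset j (by simp))
  · exact (hdvd p (prime_of_mem hp).1).mpr (clo_zero_subset j (by simp))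
  · intro r hr hrp hrd
    exact (hP r ((hdvd r (prime_of_mem hr).1).mp hrd)).2.2 (mem_X.mpr ⟨hrp, Or.inl hr⟩)
  · intro hqd
    have hqP := ((isToda_iff _ _).mp hq).1
    refine (hP q ((hdvd q hqP).mp hqd)).2.2 (mem_X.mpr ⟨?_, Or.inr rfl⟩)
    rintro rfl
    exact hq5 hp
  · rw [← card_X hp hq5, ← Set.ncard_coe_finset]
    refine Set.ncard_le_ncard ?_ (finite_toSet _)
    intro l hl
    obtain ⟨e1, e2, e3, e4⟩ := (isToda_iff _ _).mp hl
    by_contra hlX
    refine e4 ((hdvd l e1).mpr ?_)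
    rw [← hj, clo_succ, mem_step]
    exact Or.inr ⟨e1, e2, hlX, by positivity, e3⟩

theorem exists_stable (hp : p ∈ ({5, 7, 13} : Finset ℕ)) (hq : q ∈ T (3 * p))
    (hq5 : q ∉ ({5, 7, 13} : Finset ℕ)) {n : ℕ} (h : CounterOf p q n) :
    ∃ j, clo p q (j + 1) = clo p q j := by
  by_contra hcon
  have h1 : ∀ j, j ≤ #(clo p q j) := by
    intro j
    induction j with
    | zero => exact Nat.zero_le _
    | succ j ih =>
      have h2 : clo p q j ⊆ clo p q (j + 1) := by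
        rw [clo_succ]
        exact subset_union_left
      have h3 : clo p q j ⊂ clo p q (j + 1) :=
        Finset.ssubset_iff_subset_ne.mpr ⟨h2, fun h4 => hcon ⟨j, h4.symm⟩⟩
      exact Nat.lt_of_le_of_lt ih (card_lt_card h3)
  have h2 := (h1 (#n.primeFactors + 1)).trans (card_le_card (clo_dvd hp hq hq5 h _))
  omega

end

end Pool.Agent.Lib.MP_f63cbe_nt
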