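import Pool.Agent.Lib.MP_f63cbe_nt.Clo
import Pool.Agent.Lib.MP_629a14_nt.Rob.PiAP

/-!
# The counterexamples of one type spread
-/

set_option autoImplicit false

open Finset Filter Topology

namespace Pool.Agent.Lib.MP_f63cbe_nt

theorem CounterOf.counterexample {p q n : ℕ} (hp : p ∈ ({5, 7, 13} : Finset ℕ))
    (hq : q ∈ T (3 * p)) (hq5 : q ∉ ({5, 7, 13} : Finset ℕ)) (h : CounterOf p q n) :
    Counterexample n := by
  obtain ⟨h1, h2, h3, h4, h5, h6, h7⟩ := h
  exact ⟨⟨h1, h2, h3, p, hp, h4, h5, q, hq, hq5, h6⟩, h7⟩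

theorem CounterOf.mul {p q n m : ℕ} (hp : p ∈ ({5, 7, 13} : Finset ℕ))
    (hq : q ∈ T (3 * p)) (hq5 : q ∉ ({5, 7, 13} : Finset ℕ)) (h : CounterOf p q n)
    (hsq : Squarefree m) (hm : ∀ l, l.Prime → l ∣ m → l ≡ 1 [MOD Q n]) :
    CounterOf p q (n * m) := by
  have hc := (h.counterexample hp hq hq5).mul hsq hm
  have hn := (h.counterexample hp hq hq5).1.pos
  obtain ⟨⟨g1, g2, g3, _⟩, g7⟩ := hc
  obtain ⟨h1, h2, h3, h4, h5, h6, h7⟩ := h
  have h12 : 12 ∣ 4 * n := by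
    obtain ⟨k, rfl⟩ := h3
    exact ⟨k, by ring⟩
  have hpd : 12 * p ∣ 4 * n := by
    have h3p : 3 * p ∣ n := by
      refine Nat.Coprime.mul_dvd_of_dvd_of_dvd ?_ h3 h4
      simp only [mem_insert, mem_singleton] at hp
      rcases hp with rfl | rfl | rfl <;> decide
    obtain ⟨k, hk⟩ := h3p
    exact ⟨k, by rw [hk]; ring⟩
  refine ⟨g1, g2, g3, h4.mul_right m, ?_, ?_, g7⟩
  · intro r hr5 hrp hrd
    have hrP := prime_of_mem hr5
    rcases hrP.1.dvd_mul.mp hrd with h8 | h8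
    · exact h5 r hr5 hrp h8
    · exact not_dvd_of hn hm hrP.1 (hrP.2.2.2.trans h12) h8
  · intro hqd
    obtain ⟨hqP, _, hq1, _⟩ := hq
    rcases hqP.dvd_mul.mp hqd with h8 | h8
    · exact h6 h8
    · refine not_dvd_of hn hm hqP (hq1.trans ?_) h8
      have h9 : 4 * (3 * p) = 12 * p := by ring
      rw [h9]
      exact hpd

/-- a set which contains `n l` for all primes `l` congruent to `1` modulo `k` has at least
`c N / log N` members up to `N` -/
theorem many_of {P : ℕ → Prop} {n k : ℕ} (hn0 : 0 < n) (hk : 1 ≤ k)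
    (h : ∀ l, l.Prime → l ≡ 1 [MOD k] → P (n * l)) :
    ∃ c : ℝ, 0 < c ∧ ∀ᶠ N : ℕ in atTop,
      c * (N / Real.log N) ≤ ({m : ℕ | 1 ≤ m ∧ m ≤ N ∧ P m}).ncard := by
  classical
  have hφ : (0 : ℝ) < k.totient := by exact_mod_cast Nat.totient_pos.mpr hk
  have hn' : (0 : ℝ) < n := by exact_mod_cast hn0
  obtain ⟨N₀, hN₀⟩ := Pool.Agent.Lib.MP_629a14_nt.Rob.pi_unif k 1 hk
    (Nat.coprime_one_left _) (1 / (4 * (n * k.totient))) (by positivity)
  refine ⟨1 / (4 * (n * k.totient)), by positivity, ?_⟩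
  filter_upwards [eventually_ge_atTop N₀, eventually_ge_atTop 2,
    eventually_ge_atTop (4 * (n * k.totient) * n)] with N h1 h2 h3
  have hN : (0 : ℝ) < N := by
    have : 0 < N := by omega
    exact_mod_cast this
  have hlog : 0 < Real.log N := Real.log_pos (by exact_mod_cast (by omega : 1 < N))
  have h4 := (abs_le.mp (hN₀ N h1 (N / n) (Nat.div_le_self N n))).1
  have h5 : ((Icc 1 (N / n)).filter (fun l => l.Prime ∧ l ≡ 1 [MOD k])).card ≤
      ({m : ℕ | 1 ≤ m ∧ m ≤ N ∧ P m}).ncard := by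
    rw [← Set.ncard_coe_finset]
    refine Set.ncard_le_ncard_of_injOn (fun l => n * l) ?_ ?_ ?_
    · intro l hl
      rw [mem_coe, mem_filter, mem_Icc] at hl
      obtain ⟨⟨hl1, hl2⟩, hl3, hl4⟩ := hl
      refine ⟨Nat.mul_pos hn0 hl1, ?_, h l hl3 hl4⟩
      calc n * l ≤ n * (N / n) := Nat.mul_le_mul_left n hl2
        _ ≤ N := Nat.mul_div_le N n
    · intro x _ y _ hxy
      exact Nat.eq_of_mul_eq_mul_left hn0 hxy
    · exact (Set.finite_Iic N).subset fun m hm => hm.2.1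
  have h6 : ((N / n : ℕ) : ℝ) ≥ N / n - 1 := by
    have h7 := Nat.lt_div_mul_add (a := N) (b := n) hn0
    have h8 : (N : ℝ) < (N / n : ℕ) * n + n := by exact_mod_cast h7
    rw [ge_iff_le, sub_le_iff_le_add, div_le_iff₀ hn']
    nlinarith
  have h7 : (4 * (n * k.totient) * n : ℝ) ≤ N := by exact_mod_cast h3
  have h8 : (N : ℝ) / (2 * (n * k.totient)) ≤ Real.log N *
      (((Icc 1 (N / n)).filter (fun l => l.Prime ∧ l ≡ 1 [MOD k])).card : ℝ) := by
    have h9 : (N : ℝ) / (2 * (n * k.totient)) + 1 / (4 * (n * k.totient)) * N ≤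
        ((N / n : ℕ) : ℝ) / k.totient := by
      have h10 : ((N : ℝ) / n - 1) / k.totient ≤ ((N / n : ℕ) : ℝ) / k.totient :=
        div_le_div_of_nonneg_right h6 hφ.le
      refine le_trans ?_ h10
      have h11 : ((N : ℝ) / n - 1) / k.totient -
          ((N : ℝ) / (2 * (n * k.totient)) + 1 / (4 * (n * k.totient)) * N) =
          (N - 4 * n) / (4 * (n * k.totient)) := by
        field_simp
        ring
      have h12 : (4 * n : ℝ) ≤ N := by
        have h13 : (1 : ℝ) ≤ k.totient := by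
          exact_mod_cast Nat.totient_pos.mpr hk
        have h14 : (1 : ℝ) ≤ n := by exact_mod_cast hn0
        calc (4 * n : ℝ) = 4 * (1 * 1) * n := by ring
          _ ≤ 4 * (n * k.totient) * n := by gcongr
          _ ≤ N := h7
      have h15 : 0 ≤ ((N : ℝ) - 4 * n) / (4 * (n * k.totient)) :=
        div_nonneg (by linarith) (by positivity)
      linarith
    linarith
  have h9 : (((Icc 1 (N / n)).filter (fun l => l.Prime ∧ l ≡ 1 [MOD k])).card : ℝ) ≤
      (({m : ℕ | 1 ≤ m ∧ m ≤ N ∧ P m}).ncard : ℝ) := by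
    exact_mod_cast h5
  refine le_trans ?_ h9
  rw [← mul_div_assoc, div_le_iff₀ hlog, mul_comm (_ : ℝ) (Real.log N)]
  refine le_trans ?_ h8
  rw [one_div, inv_mul_eq_div]
  exact div_le_div_of_nonneg_left hN.le (by positivity) (by nlinarith [mul_pos hn' hφ])

end Pool.Agent.Lib.MP_f63cbe_nt
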